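import Mathlib

set_option autoImplicit false

namespace Pool.Agent.Results.MP_1ac531_co.UpperBound

open Finset

/-!
An upper bound for the maximal number `f n` of points of `{0, ±1, ±2}^n` on a hyperplane through
the origin which contains no nonzero point of `{0, ±1}^n`: `f n ≤ 2.6422 ^ n` for every `n`
(known: `f n ≤ C * 2.723 ^ n`; the conjectured growth rate is `2.5386...`).

Proof idea. Let `F` be the set of points of `{0, ±1, ±2}^n` on the hyperplane. Two different
points of `F` never differ by a vector of `{0, ±1}^n`, nor by a vector of `{0, ±2}^n`. So `F`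
has at most one point in every product of sets from the list `{-2,-1}, {-1,0}, {0,1}, {1,2}`, and
at most one in every product of sets from the list `{-2,0}, {0,2}, {-1,1}`. With weights on the two
lists this gives two inequalities `∑ x ∈ F, ∏ i, b (x i) ≤ 1`, and the weighted inequality between
the arithmetic and the geometric mean (weights 5/9 and 4/9) combines them.
-/

/-- `f n`: the maximal number of points of `{0, ±1, ±2}^n` on a hyperplane `∑ a i * x i = 0`,
`a ≠ 0`, that contains no nonzero point of `{0, ±1}^n`. -/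
noncomputable def f (n : ℕ) : ℕ :=
  sSup {k : ℕ | ∃ a : Fin n → ℝ, a ≠ 0 ∧
    (∀ x ∈ Fintype.piFinset (fun _ : Fin n => Finset.Icc (-1 : ℤ) 1),
      ∑ i, a i * (x i : ℝ) = 0 → x = 0) ∧
    ((Fintype.piFinset (fun _ : Fin n => Finset.Icc (-2 : ℤ) 2)).filter
      (fun x => ∑ i, a i * (x i : ℝ) = 0)).card = k}

/-- Weighted clique cover inequality. -/
theorem cover_aux {n m : ℕ} (F : Finset (Fin n → ℤ)) (w : Fin m → ℝ) (K : Fin m → ℤ → Prop)
    [∀ j z, Decidable (K j z)] (hw : ∀ j, 0 ≤ w j) (hw1 : ∑ j, w j = 1)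
    (hF : ∀ κ : Fin n → Fin m, ∀ x ∈ F, ∀ y ∈ F, (∀ i, K (κ i) (x i)) → (∀ i, K (κ i) (y i)) →
      x = y) :
    ∑ x ∈ F, ∏ i, (∑ j, w j * (if K j (x i) then 1 else 0)) ≤ 1 := by
  classical
  have h1 : ∀ x : Fin n → ℤ, ∏ i, (∑ j, w j * (if K j (x i) then (1 : ℝ) else 0)) =
      ∑ κ : Fin n → Fin m, ∏ i, (w (κ i) * (if K (κ i) (x i) then (1 : ℝ) else 0)) := by
    intro x
    rw [Finset.prod_univ_sum]
    simp
  calc ∑ x ∈ F, ∏ i, (∑ j, w j * (if K j (x i) then (1 : ℝ) else 0))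
      = ∑ x ∈ F, ∑ κ : Fin n → Fin m, ∏ i, (w (κ i) * (if K (κ i) (x i) then (1 : ℝ) else 0)) :=
        Finset.sum_congr rfl (fun x _ => h1 x)
    _ = ∑ κ : Fin n → Fin m, ∑ x ∈ F, ∏ i, (w (κ i) * (if K (κ i) (x i) then (1 : ℝ) else 0)) :=
        Finset.sum_comm
    _ ≤ ∑ κ : Fin n → Fin m, ∏ i, w (κ i) := by
        refine Finset.sum_le_sum (fun κ _ => ?_)
        have h2 : ∀ x ∈ F, ∏ i, (w (κ i) * (if K (κ i) (x i) then (1 : ℝ) else 0)) =
            if (∀ i, K (κ i) (x i)) then ∏ i, w (κ i) else 0 := by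
          intro x _
          split_ifs with hx
          · refine Finset.prod_congr rfl (fun i _ => ?_)
            rw [if_pos (hx i), mul_one]
          · push Not at hx
            obtain ⟨i, hi⟩ := hx
            refine Finset.prod_eq_zero (Finset.mem_univ i) ?_
            rw [if_neg hi, mul_zero]
        rw [Finset.sum_congr rfl h2, ← Finset.sum_filter, Finset.sum_const, nsmul_eq_mul]
        have h3 : (F.filter (fun x => ∀ i, K (κ i) (x i))).card ≤ 1 := by
          rw [Finset.card_le_one]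
          intro x hx y hy
          rw [Finset.mem_filter] at hx hy
          exact hF κ x hx.1 y hy.1 hx.2 hy.2
        have h4 : 0 ≤ ∏ i, w (κ i) := Finset.prod_nonneg (fun i _ => hw _)
        have h5 : ((F.filter (fun x => ∀ i, K (κ i) (x i))).card : ℝ) ≤ 1 := by
          exact_mod_cast h3
        calc _ ≤ 1 * ∏ i, w (κ i) := mul_le_mul_of_nonneg_right h5 h4
          _ = _ := one_mul _
    _ = ∏ _i : Fin n, ∑ j, w j := by
        rw [Finset.prod_univ_sum]
        simp
    _ = 1 := by rw [hw1]; simp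

/-- first list: intervals of length two -/
def K1 (j : Fin 4) (z : ℤ) : Prop := z = (j : ℤ) - 2 ∨ z = (j : ℤ) - 1

/-- second list: pairs at distance two -/
def K2 (j : Fin 3) (z : ℤ) : Prop := z = (j : ℤ) - 2 ∨ z = (j : ℤ)

instance (j : Fin 4) (z : ℤ) : Decidable (K1 j z) := by unfold K1; infer_instance

instance (j : Fin 3) (z : ℤ) : Decidable (K2 j z) := by unfold K2; infer_instance

/-- weights of the first list -/
noncomputable def w1 (j : Fin 4) : ℝ :=
  if (j : ℕ) = 0 ∨ (j : ℕ) = 3 then 38845 / 100000 else 1 / 2 - 38845 / 100000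

/-- weights of the second list -/
noncomputable def w2 (j : Fin 3) : ℝ :=
  if (j : ℕ) = 1 then 1 - 2 * (36638 / 100000) else 36638 / 100000

theorem b1_val (z : ℤ) (h1 : -2 ≤ z) (h2 : z ≤ 2) :
    ∑ j, w1 j * (if K1 j z then (1 : ℝ) else 0) =
      if z = 0 then 1 - 2 * (38845 / 100000) else if z = 1 ∨ z = -1 then 1 / 2
        else 38845 / 100000 := by
  interval_cases z <;> simp [Fin.sum_univ_four, w1, K1] <;> norm_num

theorem b2_val (z : ℤ) (h1 : -2 ≤ z) (h2 : z ≤ 2) :
    ∑ j, w2 j * (if K2 j z then (1 : ℝ) else 0) =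
      if z = 0 then 2 * (36638 / 100000) else if z = 1 ∨ z = -1 then 1 - 2 * (36638 / 100000)
        else 36638 / 100000 := by
  interval_cases z <;> simp [Fin.sum_univ_three, w2, K2] <;> norm_num

theorem local_ineq (z : ℤ) (h1 : -2 ≤ z) (h2 : z ≤ 2) :
    0 ≤ ∑ j, w1 j * (if K1 j z then (1 : ℝ) else 0) ∧
    0 ≤ ∑ j, w2 j * (if K2 j z then (1 : ℝ) else 0) ∧
    ((5000 / 13211 : ℝ)) ^ 9 ≤ (∑ j, w1 j * (if K1 j z then (1 : ℝ) else 0)) ^ 5 *
      (∑ j, w2 j * (if K2 j z then (1 : ℝ) else 0)) ^ 4 := by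
  rw [b1_val z h1 h2, b2_val z h1 h2]
  interval_cases z <;> norm_num

theorem amgm (u v c : ℝ) (hu : 0 ≤ u) (hv : 0 ≤ v) (hc : 0 ≤ c) (h : c ^ 9 ≤ u ^ 5 * v ^ 4) :
    c ≤ 5 / 9 * u + 4 / 9 * v := by
  have h1 := Real.geom_mean_le_arith_mean2_weighted (w₁ := 5 / 9) (w₂ := 4 / 9) (p₁ := u)
    (p₂ := v) (by norm_num) (by norm_num) hu hv (by norm_num)
  refine le_trans ?_ h1
  have h2 : (u ^ (5 / 9 : ℝ) * v ^ (4 / 9 : ℝ)) ^ 9 = u ^ 5 * v ^ 4 := by
    rw [mul_pow, ← Real.rpow_natCast, ← Real.rpow_natCast, ← Real.rpow_mul hu,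
      ← Real.rpow_mul hv]
    norm_num
  rw [← h2] at h
  exact le_of_pow_le_pow_left₀ (by norm_num) (by positivity) h

theorem bound (n : ℕ) (a : Fin n → ℝ)
    (ha : ∀ x ∈ Fintype.piFinset (fun _ : Fin n => Finset.Icc (-1 : ℤ) 1),
      ∑ i, a i * (x i : ℝ) = 0 → x = 0) :
    (((Fintype.piFinset (fun _ : Fin n => Finset.Icc (-2 : ℤ) 2)).filter
      (fun x => ∑ i, a i * (x i : ℝ) = 0)).card : ℝ) ≤ (2.6422 : ℝ) ^ n := by
  classical
  set F := ((Fintype.piFinset (fun _ : Fin n => Finset.Icc (-2 : ℤ) 2)).filter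
      (fun x => ∑ i, a i * (x i : ℝ) = 0)) with hFdef
  have hmem : ∀ x ∈ F, (∀ i, -2 ≤ x i ∧ x i ≤ 2) ∧ ∑ i, a i * (x i : ℝ) = 0 := by
    intro x hx
    rw [hFdef, Finset.mem_filter, Fintype.mem_piFinset] at hx
    exact ⟨fun i => Finset.mem_Icc.1 (hx.1 i), hx.2⟩
  have hA := cover_aux F w1 K1 (by intro j; unfold w1; split_ifs <;> norm_num)
    (by simp [Fin.sum_univ_four, w1]; norm_num) (by
      intro κ x hx y hy h1 h2
      have h3 := ha (fun i => x i - y i) (by
        rw [Fintype.mem_piFinset]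
        intro i
        rw [Finset.mem_Icc]
        have e1 := h1 i
        have e2 := h2 i
        unfold K1 at e1 e2
        omega) (by
        have e1 := (hmem x hx).2
        have e2 := (hmem y hy).2
        have e3 : ∑ i, a i * ((x i - y i : ℤ) : ℝ) =
            ∑ i, a i * (x i : ℝ) - ∑ i, a i * (y i : ℝ) := by
          rw [← Finset.sum_sub_distrib]
          refine Finset.sum_congr rfl (fun i _ => ?_)
          push_cast
          ring
        rw [e3, e1, e2, sub_zero])
      funext i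
      have h4 := congrFun h3 i
      simp only [Pi.zero_apply] at h4
      omega)
  have hB := cover_aux F w2 K2 (by intro j; unfold w2; split_ifs <;> norm_num)
    (by simp [Fin.sum_univ_three, w2]; norm_num) (by
      intro κ x hx y hy h1 h2
      have hev : ∀ i, ∃ d : ℤ, x i - y i = 2 * d ∧ -1 ≤ d ∧ d ≤ 1 := by
        intro i
        have e1 := h1 i
        have e2 := h2 i
        unfold K2 at e1 e2
        rcases e1 with e1 | e1 <;> rcases e2 with e2 | e2
        · exact ⟨0, by omega, by norm_num, by norm_num⟩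
        · exact ⟨-1, by omega, by norm_num, by norm_num⟩
        · exact ⟨1, by omega, by norm_num, by norm_num⟩
        · exact ⟨0, by omega, by norm_num, by norm_num⟩
      choose d hd1 hd2 hd3 using hev
      have h3 := ha d (by
        rw [Fintype.mem_piFinset]
        intro i
        rw [Finset.mem_Icc]
        exact ⟨hd2 i, hd3 i⟩) (by
        have e1 := (hmem x hx).2
        have e2 := (hmem y hy).2
        have e3 : 2 * ∑ i, a i * (d i : ℝ) =
            ∑ i, a i * (x i : ℝ) - ∑ i, a i * (y i : ℝ) := by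
          rw [← Finset.sum_sub_distrib, Finset.mul_sum]
          refine Finset.sum_congr rfl (fun i _ => ?_)
          have e4 : ((x i - y i : ℤ) : ℝ) = ((2 * d i : ℤ) : ℝ) := by rw [hd1 i]
          push_cast at e4
          calc 2 * (a i * (d i : ℝ)) = a i * (2 * (d i : ℝ)) := by ring
            _ = a i * ((x i : ℝ) - (y i : ℝ)) := by rw [← e4]
            _ = _ := by ring
        rw [e1, e2, sub_zero] at e3
        linarith)
      funext i
      have h4 := congrFun h3 i
      simp only [Pi.zero_apply] at h4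
      have h5 := hd1 i
      rw [h4] at h5
      omega)
  have hpt : ∀ x ∈ F, (5000 / 13211 : ℝ) ^ n ≤
      5 / 9 * ∏ i, (∑ j, w1 j * (if K1 j (x i) then (1 : ℝ) else 0)) +
      4 / 9 * ∏ i, (∑ j, w2 j * (if K2 j (x i) then (1 : ℝ) else 0)) := by
    intro x hx
    have hb := (hmem x hx).1
    have hl := fun i => local_ineq (x i) (hb i).1 (hb i).2
    refine amgm _ _ _ (Finset.prod_nonneg (fun i _ => (hl i).1))
      (Finset.prod_nonneg (fun i _ => (hl i).2.1)) (by positivity) ?_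
    calc ((5000 / 13211 : ℝ) ^ n) ^ 9 = ∏ _i : Fin n, (5000 / 13211 : ℝ) ^ 9 := by
          rw [Finset.prod_const, Finset.card_univ, Fintype.card_fin, ← pow_mul, ← pow_mul,
            mul_comm]
      _ ≤ ∏ i, ((∑ j, w1 j * (if K1 j (x i) then (1 : ℝ) else 0)) ^ 5 *
          (∑ j, w2 j * (if K2 j (x i) then (1 : ℝ) else 0)) ^ 4) :=
          Finset.prod_le_prod (fun i _ => by positivity) (fun i _ => (hl i).2.2)
      _ = _ := by rw [Finset.prod_mul_distrib, Finset.prod_pow, Finset.prod_pow]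
  have hsum : (F.card : ℝ) * (5000 / 13211 : ℝ) ^ n ≤ 1 := by
    calc (F.card : ℝ) * (5000 / 13211 : ℝ) ^ n = ∑ _x ∈ F, (5000 / 13211 : ℝ) ^ n := by
          rw [Finset.sum_const, nsmul_eq_mul]
      _ ≤ ∑ x ∈ F, (5 / 9 * ∏ i, (∑ j, w1 j * (if K1 j (x i) then (1 : ℝ) else 0)) +
          4 / 9 * ∏ i, (∑ j, w2 j * (if K2 j (x i) then (1 : ℝ) else 0))) :=
          Finset.sum_le_sum hpt
      _ = 5 / 9 * ∑ x ∈ F, ∏ i, (∑ j, w1 j * (if K1 j (x i) then (1 : ℝ) else 0)) +
          4 / 9 * ∑ x ∈ F, ∏ i, (∑ j, w2 j * (if K2 j (x i) then (1 : ℝ) else 0)) := by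
          rw [Finset.sum_add_distrib, Finset.mul_sum, Finset.mul_sum]
      _ ≤ 1 := by linarith
  have hc : (0 : ℝ) < (5000 / 13211 : ℝ) ^ n := by positivity
  calc (F.card : ℝ) = (F.card : ℝ) * (5000 / 13211 : ℝ) ^ n * (2.6422 : ℝ) ^ n := by
        rw [mul_assoc, ← mul_pow]
        norm_num
    _ ≤ 1 * (2.6422 : ℝ) ^ n := mul_le_mul_of_nonneg_right hsum (by positivity)
    _ = _ := one_mul _

theorem result : ∀ n : ℕ, (f n : ℝ) ≤ (2.6422 : ℝ) ^ n := by
  intro n
  unfold f
  set S := {k : ℕ | ∃ a : Fin n → ℝ, a ≠ 0 ∧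
    (∀ x ∈ Fintype.piFinset (fun _ : Fin n => Finset.Icc (-1 : ℤ) 1),
      ∑ i, a i * (x i : ℝ) = 0 → x = 0) ∧
    ((Fintype.piFinset (fun _ : Fin n => Finset.Icc (-2 : ℤ) 2)).filter
      (fun x => ∑ i, a i * (x i : ℝ) = 0)).card = k} with hS
  have hall : ∀ k ∈ S, (k : ℝ) ≤ (2.6422 : ℝ) ^ n := by
    rintro k ⟨a, _, ha, hk⟩
    rw [← hk]
    exact bound n a ha
  by_cases hne : S.Nonempty
  · have hbdd : BddAbove S := by
      refine ⟨⌊(2.6422 : ℝ) ^ n⌋₊, ?_⟩
      intro k hk
      exact Nat.le_floor (hall k hk)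
    exact hall _ (Nat.sSup_mem hne hbdd)
  · rw [Set.not_nonempty_iff_eq_empty] at hne
    rw [hne, csSup_empty]
    simp only [bot_eq_zero', Nat.cast_zero]
    positivity

end Pool.Agent.Results.MP_1ac531_co.UpperBound
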